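import Pool.Agent.helper68.SF.SpecW

/-!
# sw:MG: formulas for the modular group
-/

set_option autoImplicit false

namespace SF

theorem MG_det (v : ℤ × ℤ) (hv : v ∈ Pv) : dt (cpl v) v = 1 := by
  have h1 : Int.gcd v.1 v.2 = 1 := hv
  have h2 := Int.gcd_eq_gcd_ab v.1 v.2
  rw [h1] at h2
  unfold dt cpl
  push_cast at h2
  linarith

theorem MG_pos (v : ℤ × ℤ) (hv : v ∈ Pv) (x y : ℝ) (hy : 0 < y) : 0 < ip v v x y := by
  have h1 : Int.gcd v.1 v.2 = 1 := hv
  unfold ip
  by_cases h0 : v.1 = 0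
  · have h2 : v.2 ≠ 0 := by
      intro h3
      rw [h0, h3] at h1
      simp at h1
    have h3 : (v.2 : ℝ) ≠ 0 := by exact_mod_cast h2
    rw [h0]
    have : 0 < (v.2 : ℝ) * v.2 := mul_self_pos.2 h3
    push_cast
    nlinarith
  · have h3 : (v.1 : ℝ) ≠ 0 := by exact_mod_cast h0
    have h4 : 0 < (v.1 : ℝ) * v.1 := mul_self_pos.2 h3
    have h5 : 0 < (v.1 : ℝ) * v.1 * y ^ 2 := by positivity
    nlinarith [mul_self_nonneg ((v.1 : ℝ) * x + v.2)]

theorem MG : MG_stmt := by
  refine ⟨MG_det, ?_, MG_pos, ?_, ?_, ?_⟩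
  · intro v hv a b hab
    have hd := MG_det v hv
    unfold dt at hd hab
    refine ⟨(cpl v).1 * b - (cpl v).2 * a, ?_⟩
    refine Prod.ext ?_ ?_
    · show a = (cpl v).1 + ((cpl v).1 * b - (cpl v).2 * a) * v.1
      have h1 : a * v.2 - b * v.1 = 1 := hab
      linear_combination (cpl v).1 * h1 - a * hd
    · show b = (cpl v).2 + ((cpl v).1 * b - (cpl v).2 * a) * v.2
      have h1 : a * v.2 - b * v.1 = 1 := hab
      linear_combination (cpl v).2 * h1 - b * hd
  · intro v hv x y hy m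
    have hp := MG_pos v hv x y hy
    have e1 : ip ((5 : ℤ) • cpl v + m • v) v x y =
        5 * ip (cpl v) v x y + m * ip v v x y := by
      unfold ip
      have c1 : (((5 : ℤ) • cpl v + m • v).1 : ℤ) = 5 * (cpl v).1 + m * v.1 := by
        simp
      have c2 : (((5 : ℤ) • cpl v + m • v).2 : ℤ) = 5 * (cpl v).2 + m * v.2 := by
        simp
      rw [c1, c2]
      push_cast
      ring
    have e2 : XX v x y = ip (cpl v) v x y / ip v v x y := by
      unfold XX Xr ip cpl
      push_cast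
      congr 1
      ring
    rw [e1, e2]
    field_simp
  · intro v hv x y hy
    unfold YY Yr ip
    congr 1
    ring
  · intro u v x y
    unfold ip dt
    push_cast
    ring

end SF
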