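import Pool.Agent.helper68.SF.SpecJ

/-!
# sj:J2: the Lipschitz bound of the cone function
-/

set_option autoImplicit false

namespace SF

open MeasureTheory Set
open scoped ContDiff

theorem J2_qpos (l t y : ℝ) (hl : 0 < l) (hy : 0 < y) : 0 < qq l t y := by
  unfold qq
  have h1 : 0 ≤ y * t ^ 2 := by positivity
  have h2 : 0 < l ^ 2 / y := by positivity
  linarith

theorem J2_der (f f' : ℝ → ℝ → ℝ) (B l : ℝ) (h : FD f f' B) (hl : 0 < l) (y : ℝ) (hy : 0 < y)
    (t : ℝ) :
    HasDerivAt (fun t => 1 / √(qq l t y) * f (-(1 / 2) * Real.log (qq l t y)) y)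
      (-(y * t) / (qq l t y * √(qq l t y)) * (f (-(1 / 2) * Real.log (qq l t y)) y +
        f' (-(1 / 2) * Real.log (qq l t y)) y)) t := by
  have hq := J2_qpos l t y hl hy
  have hs : 0 < √(qq l t y) := Real.sqrt_pos.2 hq
  have hs2 : √(qq l t y) * √(qq l t y) = qq l t y := Real.mul_self_sqrt hq.le
  have h1 : HasDerivAt (fun t => qq l t y) (2 * y * t) t := by
    have h2 : HasDerivAt (fun t : ℝ => y * t ^ 2 + l ^ 2 / y) (y * (2 * t)) t := by
      have h3 := (((hasDerivAt_pow 2 t).const_mul y).add_const (l ^ 2 / y))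
      simpa using h3
    have h4 : 2 * y * t = y * (2 * t) := by ring
    rw [h4]
    exact h2
  have h2 : HasDerivAt (fun t => √(qq l t y)) (2 * y * t / (2 * √(qq l t y))) t := h1.sqrt hq.ne'
  have h3 : HasDerivAt (fun t => (√(qq l t y))⁻¹)
      (-(2 * y * t / (2 * √(qq l t y))) / √(qq l t y) ^ 2) t := h2.inv hs.ne'
  have h4 : HasDerivAt (fun t => -(1 / 2) * Real.log (qq l t y))
      (-(1 / 2) * (2 * y * t / qq l t y)) t := (h1.log hq.ne').const_mul _
  have h5 : HasDerivAt (fun t => f (-(1 / 2) * Real.log (qq l t y)) y)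
      (f' (-(1 / 2) * Real.log (qq l t y)) y * (-(1 / 2) * (2 * y * t / qq l t y))) t := by
    have h5a : HasDerivAt (fun s => f s y) (f' (-(1 / 2) * Real.log (qq l t y)) y)
        (-(1 / 2) * Real.log (qq l t y)) := h.der (-(1 / 2) * Real.log (qq l t y)) y hy
    exact HasDerivAt.comp (h₂ := fun s => f s y) t h5a h4
  have h6 := h3.mul h5
  have e1 : (fun t => 1 / √(qq l t y) * f (-(1 / 2) * Real.log (qq l t y)) y) =
      (fun t => (√(qq l t y))⁻¹ * f (-(1 / 2) * Real.log (qq l t y)) y) := by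
    funext t
    rw [one_div]
  rw [e1]
  refine h6.congr_deriv ?_
  set F := f (-(1 / 2) * Real.log (qq l t y)) y
  set F' := f' (-(1 / 2) * Real.log (qq l t y)) y
  set r := √(qq l t y) with hr
  rw [← hs2]
  field_simp
  ring

theorem J2 (hJ1 : J1_stmt) : J2_stmt := by
  intro f f' B l m m' h hl hm hmm
  have hB : 0 ≤ B := by
    have h1 := h.bd 0 1 one_pos
    rw [div_one] at h1
    exact (abs_nonneg _).trans h1
  have hm' : 0 < m' := lt_of_lt_of_le hm hmm
  obtain ⟨hi1, -, -, hi2, hi3⟩ := hJ1 f f' B l m h hl hm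
  obtain ⟨hi1', -, -, -, -⟩ := hJ1 f f' B l m' h hl hm'
  have hpt : ∀ y ∈ Ioi (0 : ℝ),
      ‖1 / √(qq l m y) * f (-(1 / 2) * Real.log (qq l m y)) y -
        1 / √(qq l m' y) * f (-(1 / 2) * Real.log (qq l m' y)) y‖ ≤
      (2 * B * (m' - m) / m) * (1 / (√(qq l m y) * y)) := by
    intro y hy
    have hy' : 0 < y := hy
    have hqm := J2_qpos l m y hl hy'
    have hsm : 0 < √(qq l m y) := Real.sqrt_pos.2 hqm
    have hbound : ∀ t ∈ Icc m m', ‖-(y * t) / (qq l t y * √(qq l t y)) *
        (f (-(1 / 2) * Real.log (qq l t y)) y + f' (-(1 / 2) * Real.log (qq l t y)) y)‖ ≤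
        2 * B / (m * √(qq l m y) * y) := by
      intro t ht
      have ht0 : 0 < t := lt_of_lt_of_le hm ht.1
      have hq := J2_qpos l t y hl hy'
      have hs : 0 < √(qq l t y) := Real.sqrt_pos.2 hq
      have hqq : qq l m y ≤ qq l t y := by
        unfold qq
        have : m ^ 2 ≤ t ^ 2 := pow_le_pow_left₀ hm.le ht.1 2
        have := mul_le_mul_of_nonneg_left this hy'.le
        linarith
      have hss : √(qq l m y) ≤ √(qq l t y) := Real.sqrt_le_sqrt hqq
      have h1 : |f (-(1 / 2) * Real.log (qq l t y)) y + f' (-(1 / 2) * Real.log (qq l t y)) y| ≤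
          2 * B / y := by
        refine (abs_add_le _ _).trans ?_
        have a1 := h.bd (-(1 / 2) * Real.log (qq l t y)) y hy'
        have a2 := h.bd' (-(1 / 2) * Real.log (qq l t y)) y hy'
        have : 2 * B / y = B / y + B / y := by ring
        linarith
      have h2 : |-(y * t) / (qq l t y * √(qq l t y))| ≤ 1 / (m * √(qq l m y)) := by
        rw [abs_div, abs_neg, abs_of_pos (by positivity : 0 < y * t),
          abs_of_pos (by positivity : 0 < qq l t y * √(qq l t y)), div_le_div_iff₀ (by positivity)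
          (by positivity), one_mul]
        have h3 : y * t * m ≤ qq l t y := by
          have h4 : y * t * m ≤ y * t * t := mul_le_mul_of_nonneg_left ht.1 (by positivity)
          have h5 : y * t * t ≤ qq l t y := by
            unfold qq
            have : 0 ≤ l ^ 2 / y := by positivity
            nlinarith
          linarith
        calc y * t * (m * √(qq l m y)) = (y * t * m) * √(qq l m y) := by ring
          _ ≤ qq l t y * √(qq l t y) := mul_le_mul h3 hss hsm.le hq.le
      rw [norm_mul, Real.norm_eq_abs, Real.norm_eq_abs]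
      calc _ ≤ 1 / (m * √(qq l m y)) * (2 * B / y) := mul_le_mul h2 h1 (abs_nonneg _) (by positivity)
        _ = 2 * B / (m * √(qq l m y) * y) := by
          field_simp
    have hmv := (convex_Icc m m').norm_image_sub_le_of_norm_hasDerivWithin_le
      (f := fun t => 1 / √(qq l t y) * f (-(1 / 2) * Real.log (qq l t y)) y)
      (fun t _ => (J2_der f f' B l h hl y hy' t).hasDerivWithinAt) hbound
      (right_mem_Icc.2 hmm) (left_mem_Icc.2 hmm)
    refine hmv.trans (le_of_eq ?_)
    rw [Real.norm_eq_abs, abs_sub_comm, abs_of_nonneg (by linarith)]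
    field_simp
  unfold jf
  rw [← mul_sub, ← integral_sub hi1 hi1', abs_mul, abs_of_pos (by norm_num : (0 : ℝ) < 1 / 2)]
  have hint : IntegrableOn (fun y => (2 * B * (m' - m) / m) * (1 / (√(qq l m y) * y))) (Ioi 0) :=
    hi2.const_mul _
  have h1 : ‖∫ y in Ioi (0 : ℝ), (1 / √(qq l m y) * f (-(1 / 2) * Real.log (qq l m y)) y -
      1 / √(qq l m' y) * f (-(1 / 2) * Real.log (qq l m' y)) y)‖ ≤
      ∫ y in Ioi (0 : ℝ), (2 * B * (m' - m) / m) * (1 / (√(qq l m y) * y)) := by
    refine norm_integral_le_of_norm_le hint ?_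
    refine (ae_restrict_iff' measurableSet_Ioi).2 (Filter.Eventually.of_forall fun y hy => ?_)
    exact hpt y hy
  rw [Real.norm_eq_abs] at h1
  rw [integral_const_mul] at h1
  have hc : 0 ≤ 2 * B * (m' - m) / m := by
    have : 0 ≤ m' - m := by linarith
    positivity
  have h2 := mul_le_mul_of_nonneg_left hi3 hc
  calc _ ≤ 1 / 2 * ((2 * B * (m' - m) / m) * (2 * (1 / l + 1 / m))) := by
        refine mul_le_mul_of_nonneg_left (h1.trans h2) (by norm_num)
    _ = 2 * B * (1 / l + 1 / m) * (1 / m) * (m' - m) := by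
        field_simp

end SF
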